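import Mathlib
import Pool.Agent.Helper192_HP.Fin3

namespace Pool.Agent.Results.MP_5ae64c_pr.FddProfile
open Finset MeasureTheory Filter Topology HP192

/-- Q1 in the finite-dimensional reading: for every sequence of finite connected vertex-transitive
graphs with (A1) and (A2), the finite-dimensional distributions of the rescaled height profile of
the uniform spanning tree converge to those of the continuum profile. -/
theorem result {V : ℕ → Type} [∀ n, Fintype (V n)] [∀ n, DecidableEq (V n)]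
    (G : ∀ n, SimpleGraph (V n)) (hS : Setup V G) (O : ∀ n, V n)
    (β : ℕ → ℝ) (b1 b2 : ℝ) (hb1 : 0 < b1) (hβ : ∀ n, b1 ≤ β n ∧ β n ≤ b2)
    {Ω : Type} [MeasurableSpace Ω] (P : Measure Ω) [IsProbabilityMeasure P]
    (e : Ω → C(unitInterval, ℝ)) (he : Measurable e) (hGHP : GHPconv G O β P e)
    (ℓ : Ω → ℝ → ℝ) (hℓ : ∀ᵐ ω ∂P, ContinuousOn (ℓ ω) (Set.Ici 0) ∧
      ∀ r : ℝ, 0 ≤ r → De (e ω) r = ∫ s in (0 : ℝ)..r, ℓ ω s)
    (m : ℕ) (r : Fin m → ℝ) (hr : ∀ i, 0 < r i)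
    (F : (Fin m → ℝ) → ℝ) (hF : Continuous F) (hFb : ∃ C, ∀ x, |F x| ≤ C) :
    Tendsto (fun n => avT (G n) (fun T => F (fun i =>
      β n / Real.sqrt (Fintype.card (V n))
        * (Hp (O n) T ⌊r i * β n * Real.sqrt (Fintype.card (V n))⌋₊ : ℝ))))
      atTop (𝓝 (∫ ω, F (fun i => ℓ ω (r i)) ∂P)) :=
  final_fdd G hS O β b1 b2 hb1 hβ P e he hGHP ℓ hℓ m r hr F hF hFb

end Pool.Agent.Results.MP_5ae64c_pr.FddProfile
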